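import Pool.Agent.Helper8_BRW.Stmts

set_option autoImplicit false

open MeasureTheory Set Filter

namespace BRW.H84F

/-- extension of `h` to negative times -/
noncomputable def H (h : ℝ → ℤ → ℝ) (s : ℝ) (x : ℤ) : ℝ := h (max s 0) x

theorem H_eq {h : ℝ → ℤ → ℝ} {s : ℝ} (hs : 0 ≤ s) (x : ℤ) : H h s x = h s x := by
  unfold H; rw [max_eq_left hs]

theorem cont_on {ξ : ℤ → ℝ} {b : ℝ} {y : ℤ} {h : ℝ → ℤ → ℝ} (hh : IsLin ξ b y h) (x : ℤ) :
    ContinuousOn (fun s => h s x) (Ici 0) := by
  by_cases hx : x < y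
  · intro t ht
    exact (hh.deriv t x ht hx).continuousWithinAt
  · push Not at hx
    have : EqOn (fun s => h s x) (fun _ => (1 : ℝ)) (Ici 0) := fun t ht => hh.bdry t x ht hx
    exact continuousOn_const.congr this

theorem H_cont {ξ : ℤ → ℝ} {b : ℝ} {y : ℤ} {h : ℝ → ℤ → ℝ} (hh : IsLin ξ b y h) (x : ℤ) :
    Continuous (fun s => H h s x) := by
  have h1 := (cont_on hh x).comp_continuous (f := fun s : ℝ => max s 0)
    (continuous_id.max continuous_const) (fun s => mem_Ici.2 (le_max_right s 0))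
  exact h1

/-- `Ψ` -/
noncomputable def Psi (h : ℝ → ℤ → ℝ) (k t : ℝ) (x : ℤ) : ℝ :=
  ∫ s in (0 : ℝ)..t, Real.exp (-(k * s)) * H h s x

theorem cont_int {ξ : ℤ → ℝ} {b : ℝ} {y : ℤ} {h : ℝ → ℤ → ℝ} (hh : IsLin ξ b y h) (k : ℝ) (x : ℤ) :
    Continuous (fun s => Real.exp (-(k * s)) * H h s x) :=
  (Real.continuous_exp.comp (continuous_const.mul continuous_id).neg).mul (H_cont hh x)

theorem Psi_deriv {ξ : ℤ → ℝ} {b : ℝ} {y : ℤ} {h : ℝ → ℤ → ℝ} (hh : IsLin ξ b y h) (k t : ℝ) (x : ℤ) :
    HasDerivAt (fun t => Psi h k t x) (Real.exp (-(k * t)) * H h t x) t := by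
  have hc := cont_int hh k x
  exact intervalIntegral.integral_hasDerivAt_right (hc.intervalIntegrable _ _)
    (hc.stronglyMeasurableAtFilter _ _) hc.continuousAt

/-- the operator applied to `Ψ` -/
theorem Psi_L {ξ : ℤ → ℝ} {b : ℝ} {y : ℤ} {h : ℝ → ℤ → ℝ} (hh : IsLin ξ b y h) (k : ℝ) {t : ℝ}
    (ht : 0 ≤ t) {x : ℤ} (hx : x < y) :
    (Psi h k t (x + 1) + Psi h k t (x - 1)) / 2 - Psi h k t x + ξ x * Psi h k t x =
      Real.exp (-(k * t)) * h t x + k * Psi h k t x := by
  have hexp : ∀ r : ℝ, HasDerivAt (fun r => Real.exp (-(k * r))) (Real.exp (-(k * r)) * (-k)) r := by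
    intro r
    have := (((hasDerivAt_id r).const_mul k).neg).exp
    simpa using this
  have key := constant_of_has_deriv_right_zero (a := 0) (b := t)
    (f := fun r => Real.exp (-(k * r)) * h r x + k * Psi h k r x -
      ((Psi h k r (x + 1) + Psi h k r (x - 1)) / 2 - Psi h k r x + ξ x * Psi h k r x)) ?_ ?_ t
      ⟨ht, le_rfl⟩
  · have h0 : ∀ z, Psi h k 0 z = 0 := fun z => by unfold Psi; exact intervalIntegral.integral_same
    simp only [h0, hh.init x hx] at key
    linarith
  · have hP : ∀ z, ContinuousOn (fun r => Psi h k r z) (Icc 0 t) := fun z r _ =>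
      (Psi_deriv hh k r z).continuousAt.continuousWithinAt
    have hE : ContinuousOn (fun r => Real.exp (-(k * r))) (Icc 0 t) := fun r _ =>
      (hexp r).continuousAt.continuousWithinAt
    have hH : ContinuousOn (fun r => h r x) (Icc 0 t) := (cont_on hh x).mono (fun r hr => hr.1)
    exact ((hE.mul hH).add (continuousOn_const.mul (hP x))).sub
      (((((hP (x + 1)).add (hP (x - 1))).div_const 2).sub (hP x)).add
        (continuousOn_const.mul (hP x)))
  · intro r hr
    have hd := (hh.deriv r x hr.1 hx).mono (Ici_subset_Ici.2 hr.1)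
    have hE := (hexp r).hasDerivWithinAt (s := Ici r)
    have hP : ∀ z, HasDerivWithinAt (fun r => Psi h k r z) (Real.exp (-(k * r)) * h r z) (Ici r) r := by
      intro z
      have := (Psi_deriv hh k r z).hasDerivWithinAt (s := Ici r)
      rwa [H_eq hr.1] at this
    have h1 := ((hE.mul hd).add ((hP x).const_mul k)).sub
      (((((hP (x + 1)).add (hP (x - 1))).div_const 2).sub (hP x)).add ((hP x).const_mul (ξ x)))
    refine h1.congr_deriv ?_
    unfold lap
    ring

/-- the correction term -/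
noncomputable def Bt (h : ℝ → ℤ → ℝ) (b k t : ℝ) (x : ℤ) : ℝ :=
  2 * b * (Real.exp (k * t) * (Psi h k t x - Psi h k (t / 2) x))

theorem Bt_deriv {ξ : ℤ → ℝ} {b : ℝ} {y : ℤ} {h : ℝ → ℤ → ℝ} (hh : IsLin ξ b y h) (k : ℝ) {t : ℝ}
    (ht : 0 ≤ t) (x : ℤ) :
    HasDerivAt (fun t => Bt h b k t x)
      (k * Bt h b k t x + 2 * b * h t x - b * (Real.exp (k * t / 2) * h (t / 2) x)) t := by
  have hexp : HasDerivAt (fun r => Real.exp (k * r)) (Real.exp (k * t) * k) t := by
    have := ((hasDerivAt_id t).const_mul k).exp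
    simpa using this
  have h1 := Psi_deriv hh k t x
  have h2 : HasDerivAt (fun r => Psi h k (r / 2) x)
      ((Real.exp (-(k * (t / 2))) * H h (t / 2) x) * (1 / 2)) t := by
    have h3 := Psi_deriv hh k (t / 2) x
    have h4 : HasDerivAt (fun r : ℝ => r / 2) (1 / 2) t := (hasDerivAt_id t).div_const 2
    exact h3.comp t h4
  have h5 := ((hexp.mul (h1.sub h2)).const_mul (2 * b))
  refine h5.congr_deriv ?_
  rw [H_eq ht, H_eq (by linarith : 0 ≤ t / 2)]
  have e1 : Real.exp (k * t) * Real.exp (-(k * t)) = 1 := by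
    rw [← Real.exp_add]; simp
  have e2 : Real.exp (k * t) * Real.exp (-(k * (t / 2))) = Real.exp (k * t / 2) := by
    rw [← Real.exp_add]; ring_nf
  unfold Bt
  simp only [Pi.sub_apply]
  calc _ = k * (2 * b * (Real.exp (k * t) * (Psi h k t x - Psi h k (t / 2) x))) +
        2 * b * ((Real.exp (k * t) * Real.exp (-(k * t))) * h t x) -
        b * ((Real.exp (k * t) * Real.exp (-(k * (t / 2)))) * h (t / 2) x) := by ring
    _ = _ := by rw [e1, e2]; ring

theorem Bt_L {ξ : ℤ → ℝ} {b : ℝ} {y : ℤ} {h : ℝ → ℤ → ℝ} (hh : IsLin ξ b y h) (k : ℝ) {t : ℝ}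
    (ht : 0 ≤ t) {x : ℤ} (hx : x < y) :
    (Bt h b k t (x + 1) + Bt h b k t (x - 1)) / 2 - Bt h b k t x + ξ x * Bt h b k t x =
      2 * b * h t x + k * Bt h b k t x - 2 * b * (Real.exp (k * t / 2) * h (t / 2) x) := by
  have h1 := Psi_L hh k ht hx
  have h2 := Psi_L hh k (by linarith : 0 ≤ t / 2) hx
  have e1 : Real.exp (k * t) * Real.exp (-(k * t)) = 1 := by
    rw [← Real.exp_add]; simp
  have e2 : Real.exp (k * t) * Real.exp (-(k * (t / 2))) = Real.exp (k * t / 2) := by
    rw [← Real.exp_add]; ring_nf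
  unfold Bt
  calc _ = 2 * b * (Real.exp (k * t) *
        (((Psi h k t (x + 1) + Psi h k t (x - 1)) / 2 - Psi h k t x + ξ x * Psi h k t x) -
        ((Psi h k (t / 2) (x + 1) + Psi h k (t / 2) (x - 1)) / 2 - Psi h k (t / 2) x +
          ξ x * Psi h k (t / 2) x))) := by ring
    _ = 2 * b * ((Real.exp (k * t) * Real.exp (-(k * t))) * h t x) +
        k * (2 * b * (Real.exp (k * t) * (Psi h k t x - Psi h k (t / 2) x))) -
        2 * b * ((Real.exp (k * t) * Real.exp (-(k * (t / 2)))) * h (t / 2) x) := by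
          rw [h1, h2]; ring
    _ = _ := by rw [e1, e2]; ring

theorem Psi_sub {ξ : ℤ → ℝ} {b : ℝ} {y : ℤ} {h : ℝ → ℤ → ℝ} (hh : IsLin ξ b y h) (k t : ℝ) (x : ℤ) :
    Psi h k t x - Psi h k (t / 2) x = ∫ s in (t / 2)..t, Real.exp (-(k * s)) * H h s x := by
  have hc := cont_int hh k x
  unfold Psi
  exact intervalIntegral.integral_interval_sub_left (hc.intervalIntegrable _ _)
    (hc.intervalIntegrable _ _)

theorem Bt_nonneg {ξ : ℤ → ℝ} {b : ℝ} {y : ℤ} {h : ℝ → ℤ → ℝ} (hb : 0 ≤ b) (hh : IsLin ξ b y h)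
    (k : ℝ) {t : ℝ} (ht : 0 ≤ t) (x : ℤ) : 0 ≤ Bt h b k t x := by
  unfold Bt
  rw [Psi_sub hh]
  have : 0 ≤ ∫ s in (t / 2)..t, Real.exp (-(k * s)) * H h s x := by
    refine intervalIntegral.integral_nonneg (by linarith) (fun s _ => ?_)
    exact mul_nonneg (Real.exp_pos _).le (hh.nonneg _ _ (le_max_right _ _))
  positivity

theorem Bt_le {a b : ℝ} {ξ : ℤ → ℝ} (hξ : Env a b ξ) {y : ℤ} {h : ℝ → ℤ → ℝ} (hb : 0 < b)
    (hh : IsLin ξ b y h) (hscl : SCL2Stmt) {t : ℝ} (ht : 0 < t) {n : ℕ} (hn : 1 ≤ n)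
    (hnt : (8 * b + 30) * t ≤ n) : Bt h b (2 * (2 * b + 10)) t (y - n) ≤ h t (y - n) / 2 := by
  set k : ℝ := 2 * (2 * b + 10) with hk
  set m : ℝ := n / t - 1 - k with hm
  have hm1 : 4 * b + 9 ≤ m := by
    have : 8 * b + 30 ≤ n / t := by rw [le_div_iff₀ ht]; exact hnt
    rw [hm, hk]; linarith
  have hmpos : 0 < m := by linarith
  have hhn := hh.nonneg t (y - n) ht.le
  unfold Bt
  rw [Psi_sub hh]
  have h1 : (∫ s in (t / 2)..t, Real.exp (-(k * s)) * H h s (y - n)) ≤
      ∫ s in (t / 2)..t, (Real.exp (-(k * t)) * h t (y - n)) * Real.exp (-(m * (t - s))) := by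
    refine intervalIntegral.integral_mono_on (by linarith) ((cont_int hh k _).intervalIntegrable _ _)
      (Continuous.intervalIntegrable (by fun_prop) _ _) ?_
    intro s hs
    have hs0 : 0 ≤ s := by linarith [hs.1]
    rw [H_eq hs0]
    have h2 := hscl a b ξ hξ y h hh s t n hn hs0 hs.2 ht
    have h3 : Real.exp (-(k * s)) * Real.exp (-((n / t - 1) * (t - s))) =
        Real.exp (-(k * t)) * Real.exp (-(m * (t - s))) := by
      rw [← Real.exp_add, ← Real.exp_add, hm]
      ring_nf
    calc Real.exp (-(k * s)) * h s (y - n)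
        ≤ Real.exp (-(k * s)) * (Real.exp (-((n / t - 1) * (t - s))) * h t (y - n)) :=
          mul_le_mul_of_nonneg_left h2 (Real.exp_pos _).le
      _ = (Real.exp (-(k * s)) * Real.exp (-((n / t - 1) * (t - s)))) * h t (y - n) := by ring
      _ = _ := by rw [h3]; ring
  have h4 : (∫ s in (t / 2)..t, Real.exp (-(m * (t - s)))) ≤ 1 / m := by
    have h5 : ∀ s ∈ uIcc (t / 2) t, HasDerivAt (fun s => Real.exp (-(m * (t - s))) / m)
        (Real.exp (-(m * (t - s)))) s := by
      intro s _
      have h6 : HasDerivAt (fun s => -(m * (t - s))) m s := by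
        have h := (((hasDerivAt_id s).const_sub t).const_mul m).neg
        have h' : HasDerivAt (fun s => -(m * (t - s))) (-(m * -1)) s := h
        rwa [mul_neg_one, neg_neg] at h'
      have h7 := h6.exp.div_const m
      refine h7.congr_deriv ?_
      field_simp
    rw [intervalIntegral.integral_eq_sub_of_hasDerivAt h5
      (Continuous.intervalIntegrable (by fun_prop) _ _)]
    have : 0 ≤ Real.exp (-(m * (t - t / 2))) / m := by positivity
    simp only [sub_self, mul_zero, neg_zero, Real.exp_zero]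
    linarith
  rw [intervalIntegral.integral_const_mul] at h1
  have h8 : (Real.exp (-(k * t)) * h t (y - n)) * (∫ s in (t / 2)..t, Real.exp (-(m * (t - s)))) ≤
      (Real.exp (-(k * t)) * h t (y - n)) * (1 / m) :=
    mul_le_mul_of_nonneg_left h4 (mul_nonneg (Real.exp_pos _).le hhn)
  have e1 : Real.exp (k * t) * Real.exp (-(k * t)) = 1 := by
    rw [← Real.exp_add]; simp
  have h9 : 2 * b * (Real.exp (k * t) * ∫ s in (t / 2)..t, Real.exp (-(k * s)) * H h s (y - n)) ≤
      2 * b * (Real.exp (k * t) * ((Real.exp (-(k * t)) * h t (y - n)) * (1 / m))) := by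
    refine mul_le_mul_of_nonneg_left ?_ (by linarith)
    exact mul_le_mul_of_nonneg_left (h1.trans h8) (Real.exp_pos _).le
  refine h9.trans ?_
  have h10 : 2 * b * (Real.exp (k * t) * ((Real.exp (-(k * t)) * h t (y - n)) * (1 / m))) =
      (Real.exp (k * t) * Real.exp (-(k * t))) * (h t (y - n) * (2 * b / m)) := by ring
  rw [h10, e1, one_mul]
  have h11 : 2 * b / m ≤ 1 / 2 := by
    rw [div_le_iff₀ hmpos]; linarith
  have := mul_le_mul_of_nonneg_left h11 hhn
  linarith

/-- (F7) -/
theorem f7 (hmax : MaxStmt) (hsq : SQStmt) (hscl : SCL2Stmt) : F7Stmt := by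
  intro a b ξ hξ y v h hv hh t n ht hnt
  have hb : 0 < b := by
    have := hξ.2 0
    linarith [hξ.1]
  rcases Nat.eq_zero_or_pos n with hn0 | hn
  · subst hn0
    have h1 : h t (y - (0 : ℕ)) = 1 := hh.bdry t _ ht (by simp)
    have h2 : v t (y - (0 : ℕ)) = 1 := by
      rw [hv.stat t _ ht (by simp)]
      simp [ind]
    rw [h1, h2]; norm_num
  have hyn : y - (n : ℤ) < y := by
    have : (1 : ℤ) ≤ n := by exact_mod_cast hn
    linarith
  rcases ht.eq_or_lt with ht0 | htpos
  · subst ht0
    rw [hh.init _ hyn]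
    have := hv.nonneg 0 (y - n) le_rfl
    linarith
  set k : ℝ := 2 * (2 * b + 10) with hk
  obtain ⟨B1, hB1⟩ := hh.bdd t
  have key := hmax (fun r x => if x < y then h r x - Bt h b k r x - v r x else 0) t b (max B1 0)
    (fun _ => 0) hb.le (fun _ => le_refl _) ?_ ?_ ?_ ?_ t (y - n) ht le_rfl
  · simp only [hyn, if_true] at key
    have := Bt_le hξ hb hh hscl htpos hn hnt
    rw [← hk] at this
    linarith
  · intro r x h0 h1
    by_cases hx : x < y
    · simp only [hx, if_true]
      have h2 := hB1 r x h0 h1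
      have h3 := Bt_nonneg hb.le hh k h0 x
      have h4 := hv.nonneg r x h0
      have h5 := le_max_left B1 0
      linarith
    · simp only [hx, if_false]
      exact le_max_right _ _
  · intro r x h0 _ h1
    have hr : r = 0 := le_antisymm h1 h0
    subst hr
    by_cases hx : x < y
    · simp only [hx, if_true]
      have h2 := hh.init x hx
      have h3 := Bt_nonneg hb.le hh k le_rfl x
      have h4 := hv.nonneg 0 x le_rfl
      linarith
    · simp only [hx, if_false, le_refl]
  · intro x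
    by_cases hx : x < y
    · simp only [hx, if_true]
      have h1 : ContinuousOn (fun r => h r x) (Icc 0 t) := (cont_on hh x).mono (fun r hr => hr.1)
      have h2 : ContinuousOn (fun r => Bt h b k r x) (Icc 0 t) := fun r hr =>
        (Bt_deriv hh k hr.1 x).continuousAt.continuousWithinAt
      have h3 : ContinuousOn (fun r => v r x) (Icc 0 t) := fun r hr =>
        ((hv.deriv r x hr.1 hx).continuousWithinAt).mono (fun q hq => hq.1)
      exact (h1.sub h2).sub h3
    · simp only [hx, if_false]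
      exact continuousOn_const
  · intro r x h0 _ hpos
    by_cases hx : x < y
    · simp only [hx, if_true] at hpos ⊢
      have hd1 := (hh.deriv r x h0 hx).mono (Ici_subset_Ici.2 h0)
      have hd2 := (Bt_deriv hh k h0 x).hasDerivWithinAt (s := Ici r)
      have hd3 := (hv.deriv r x h0 hx).mono (Ici_subset_Ici.2 h0)
      refine ⟨_, (hd1.sub hd2).sub hd3, ?_⟩
      have hBL := Bt_L hh k h0 hx
      have hx1 : x - 1 < y := by linarith
      simp only [hx1, if_true]
      have hm2 := le_max_left (h r (x - 1) - Bt h b k r (x - 1) - v r (x - 1)) 0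
      have hm1 : h r (x + 1) - Bt h b k r (x + 1) - v r (x + 1) ≤
          max (if x + 1 < y then h r (x + 1) - Bt h b k r (x + 1) - v r (x + 1) else 0) 0 := by
        by_cases hx2 : x + 1 < y
        · simp only [hx2, if_true]
          exact le_max_left _ _
        · simp only [hx2, if_false, max_self]
          push Not at hx2
          have h1 := hh.bdry r (x + 1) h0 hx2
          have h2 := Bt_nonneg hb.le hh k h0 (x + 1)
          have h3 : v r (x + 1) = 1 := by
            rw [hv.stat r _ h0 (by simp only [mem_Iio, not_lt]; exact hx2)]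
            simp [ind, hx2]
          linarith
      -- the square
      have hsq1 := hsq a b ξ hξ y v h hv hh r (y - x).toNat h0
      have hcast : y - (((y - x).toNat : ℕ) : ℤ) = x := by
        rw [Int.toNat_of_nonneg (by linarith)]; ring
      rw [hcast] at hsq1
      have he : Real.exp (k * r / 2) = Real.exp ((2 * b + 10) * r) := by
        rw [hk]; ring_nf
      rw [← he] at hsq1
      have hξx := hξ.2 x
      have hsq2 : ξ x * v r x ^ 2 ≤ b * (Real.exp (k * r / 2) * h (r / 2) x) := by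
        calc ξ x * v r x ^ 2 ≤ b * v r x ^ 2 := mul_le_mul_of_nonneg_right hξx.2 (sq_nonneg _)
          _ ≤ _ := mul_le_mul_of_nonneg_left hsq1 hb.le
      have hxi : ξ x * (h r x - Bt h b k r x - v r x) ≤ b * (h r x - Bt h b k r x - v r x) :=
        mul_le_mul_of_nonneg_right hξx.2 hpos.le
      unfold lap
      generalize (if x + 1 < y then h r (x + 1) - Bt h b k r (x + 1) - v r (x + 1) else 0) = w1 at *
      generalize max w1 0 = M1 at *
      generalize max (h r (x - 1) - Bt h b k r (x - 1) - v r (x - 1)) 0 = M2 at *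
      nlinarith
    · simp only [hx, if_false, lt_irrefl] at hpos
end BRW.H84F
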