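import Pool.Agent.Helper8_BRW.Stmts

set_option autoImplicit false

open MeasureTheory Set Filter

namespace BRW.H84

/-- shift of a right derivative -/
theorem deriv_shift {g : ℝ → ℝ} {D t0 t : ℝ} (ht0 : 0 ≤ t0) (ht : 0 ≤ t)
    (h : HasDerivWithinAt g D (Ici 0) (t0 + t)) :
    HasDerivWithinAt (fun r => g (t0 + r)) D (Ici t) t := by
  have h2 : HasDerivWithinAt (fun r : ℝ => t0 + r) 1 (Ici t) t :=
    ((hasDerivAt_id t).const_add t0).hasDerivWithinAt
  have h3 : MapsTo (fun r : ℝ => t0 + r) (Ici t) (Ici 0) := by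
    intro r hr
    simp only [mem_Ici] at *
    linarith
  have h4 := HasDerivWithinAt.scomp t h h2 h3
  rw [one_smul] at h4
  exact h4

/-- the logistic function -/
noncomputable def Z (a r : ℝ) : ℝ := (1 / 8) * Real.exp (a * r) / (7 / 8 + (1 / 8) * Real.exp (a * r))

theorem Z_den (a r : ℝ) : 0 < 7 / 8 + (1 / 8) * Real.exp (a * r) := by
  have := Real.exp_pos (a * r)
  positivity

theorem Z_deriv (a r : ℝ) : HasDerivAt (Z a) (a * (Z a r * (1 - Z a r))) r := by
  have h1 : HasDerivAt (fun r => Real.exp (a * r)) (Real.exp (a * r) * a) r := by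
    have := ((hasDerivAt_id r).const_mul a).exp
    simpa using this
  have h2 : HasDerivAt (fun r => (1 / 8) * Real.exp (a * r)) ((1 / 8) * (Real.exp (a * r) * a)) r :=
    h1.const_mul _
  have h3 : HasDerivAt (fun r => 7 / 8 + (1 / 8) * Real.exp (a * r))
      ((1 / 8) * (Real.exp (a * r) * a)) r := h2.const_add _
  have h4 := h2.div h3 (Z_den a r).ne'
  have h5 : HasDerivAt (Z a) _ r := h4
  refine h5.congr_deriv ?_
  have hd := (Z_den a r).ne'
  unfold Z
  field_simp

theorem Z_nonneg (a r : ℝ) : 0 ≤ Z a r := by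
  unfold Z
  have := Z_den a r
  positivity

theorem Z_le_one (a r : ℝ) : Z a r ≤ 1 := by
  unfold Z
  rw [div_le_one (Z_den a r)]
  linarith

theorem Z_ge {a r ε : ℝ} (hε : 0 < ε) (h : 14 / ε ≤ Real.exp (a * r)) : 1 - ε / 2 ≤ Z a r := by
  unfold Z
  have hd := Z_den a r
  have hE := Real.exp_pos (a * r)
  rw [le_div_iff₀ hd]
  rw [div_le_iff₀ hε] at h
  nlinarith

/-- the error term -/
noncomputable def e (lam R : ℝ) (r y : ℝ) : ℝ :=
  Real.exp (lam * r) * (Real.exp (y - R) + Real.exp (-y - R))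

theorem e_nonneg (lam R r y : ℝ) : 0 ≤ e lam R r y := by
  unfold e; positivity

theorem e_lap (lam R r y : ℝ) :
    (e lam R r (y + 1) + e lam R r (y - 1)) / 2 - e lam R r y = (Real.cosh 1 - 1) * e lam R r y := by
  unfold e
  have h1 : Real.exp (y + 1 - R) = Real.exp (y - R) * Real.exp 1 := by rw [← Real.exp_add]; ring_nf
  have h2 : Real.exp (y - 1 - R) = Real.exp (y - R) * Real.exp (-1) := by
    rw [← Real.exp_add]; ring_nf
  have h3 : Real.exp (-(y + 1) - R) = Real.exp (-y - R) * Real.exp (-1) := by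
    rw [← Real.exp_add]; ring_nf
  have h4 : Real.exp (-(y - 1) - R) = Real.exp (-y - R) * Real.exp 1 := by
    rw [← Real.exp_add]; ring_nf
  rw [h1, h2, h3, h4, Real.cosh_eq]
  ring

theorem e_deriv (lam R r y : ℝ) : HasDerivAt (fun r => e lam R r y) (lam * e lam R r y) r := by
  have h1 : HasDerivAt (fun r => Real.exp (lam * r)) (Real.exp (lam * r) * lam) r := by
    have := ((hasDerivAt_id r).const_mul lam).exp
    simpa using this
  have h2 := h1.mul_const (Real.exp (y - R) + Real.exp (-y - R))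
  refine h2.congr_deriv ?_
  unfold e
  ring

/-- (G2B) -/
theorem g2b (hmax : MaxStmt) : G2BStmt := by
  intro a b ε ha hε
  obtain ⟨s, hs1, hs2⟩ : ∃ s : ℝ, 1 ≤ s ∧ 14 / ε ≤ Real.exp (a * s) := by
    have h1 : Tendsto (fun s : ℝ => Real.exp (a * s)) atTop atTop :=
      Real.tendsto_exp_atTop.comp (tendsto_id.const_mul_atTop ha)
    obtain ⟨s, h⟩ := ((eventually_ge_atTop (1 : ℝ)).and (h1.eventually_ge_atTop (14 / ε))).exists
    exact ⟨s, h.1, h.2⟩
  set lam : ℝ := a + (Real.cosh 1 - 1) with hlam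
  obtain ⟨R, hR⟩ := exists_nat_ge (lam * s + Real.log (4 / ε))
  refine ⟨s, R, by linarith, ?_⟩
  intro ξ hξ f u hu t0 x0 ht0 hbox
  have hlog : 2 * Real.exp (lam * s - R) ≤ ε / 2 := by
    have h1 : lam * s - R ≤ - Real.log (4 / ε) := by linarith
    have h2 : Real.exp (lam * s - R) ≤ Real.exp (- Real.log (4 / ε)) := Real.exp_le_exp.2 h1
    rw [Real.exp_neg, Real.exp_log (by positivity)] at h2
    have h3 : (4 / ε)⁻¹ = ε / 4 := by rw [inv_div]
    rw [h3] at h2
    linarith
  have hRnn : (0 : ℝ) ≤ R := Nat.cast_nonneg R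
  -- the maximum principle
  have key := hmax (fun r x => Z a r - e lam R r ((x : ℝ) - x0) - u (t0 + r) x) s a 1 (fun _ => 0)
    ha.le (fun _ => le_refl _) ?_ ?_ ?_ ?_ s x0 (by linarith) le_rfl
  · have hZ := Z_ge hε hs2
    have he : e lam R s ((x0 : ℝ) - x0) = 2 * Real.exp (lam * s - R) := by
      unfold e
      rw [sub_self]
      have : Real.exp (lam * s - R) = Real.exp (lam * s) * Real.exp (-(R : ℝ)) := by
        rw [← Real.exp_add]; ring_nf
      rw [this]
      simp only [zero_sub, neg_zero]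
      ring
    rw [he] at key
    linarith
  · -- bounded above
    intro t x h0 _
    have h1 := Z_le_one a t
    have h2 := e_nonneg lam R t ((x : ℝ) - x0)
    have h3 := hu.nonneg (t0 + t) x (by linarith)
    linarith
  · -- initial condition
    intro t x h0 _ h1
    have ht : t = 0 := le_antisymm h1 h0
    subst ht
    have hZ0 : Z a 0 = 1 / 8 := by unfold Z; norm_num
    rw [hZ0, add_zero]
    have hun := hu.nonneg t0 x ht0
    by_cases hx : |x - x0| ≤ (R : ℤ)
    · have := hbox (x - x0) hx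
      rw [add_sub_cancel] at this
      have h2 := e_nonneg lam R 0 ((x : ℝ) - x0)
      linarith
    · push Not at hx
      have h2 : 1 ≤ e lam R 0 ((x : ℝ) - x0) := by
        unfold e
        rw [mul_zero, Real.exp_zero, one_mul]
        have hx' : (R : ℝ) < |(x : ℝ) - x0| := by exact_mod_cast hx
        rcases abs_cases ((x : ℝ) - x0) with ⟨h, _⟩ | ⟨h, _⟩
        · have h5 : 1 ≤ Real.exp ((x : ℝ) - x0 - R) := Real.one_le_exp (by linarith)
          have h6 := Real.exp_pos (-((x : ℝ) - x0) - R)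
          linarith
        · have h5 : 1 ≤ Real.exp (-((x : ℝ) - x0) - R) := Real.one_le_exp (by linarith)
          have h6 := Real.exp_pos ((x : ℝ) - x0 - R)
          linarith
      linarith
  · -- continuity
    intro x t ht
    have h1 : ContinuousWithinAt (Z a) (Icc 0 s) t := (Z_deriv a t).continuousAt.continuousWithinAt
    have h2 : ContinuousWithinAt (fun r => e lam R r ((x : ℝ) - x0)) (Icc 0 s) t :=
      (e_deriv lam R t ((x : ℝ) - x0)).continuousAt.continuousWithinAt
    have h3 : ContinuousWithinAt (fun r => u (t0 + r) x) (Icc 0 s) t := by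
      have h4 := (hu.deriv (t0 + t) x (by linarith [ht.1]) (mem_univ x)).continuousWithinAt
      refine ContinuousWithinAt.comp (f := fun r => t0 + r) (g := fun r => u r x) h4 ?_ ?_
      · exact (continuous_const.add continuous_id).continuousWithinAt
      · intro r hr
        simp only [mem_Ici]
        linarith [hr.1]
    exact (h1.sub h2).sub h3
  · -- the differential inequality
    intro t x h0 _ hpos
    have hd1 := (Z_deriv a t).hasDerivWithinAt (s := Ici t)
    have hd2 := (e_deriv lam R t ((x : ℝ) - x0)).hasDerivWithinAt (s := Ici t)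
    have hd3 := deriv_shift ht0 h0 (hu.deriv (t0 + t) x (by linarith) (mem_univ x))
    refine ⟨_, (hd1.sub hd2).sub hd3, ?_⟩
    have hu0 := hu.nonneg (t0 + t) x (by linarith)
    have hu1 := hu.le_one (t0 + t) x (by linarith)
    have hel := e_lap lam R t ((x : ℝ) - x0)
    have he0 := e_nonneg lam R t ((x : ℝ) - x0)
    have hm1 := le_max_left (Z a t - e lam R t (((x + 1 : ℤ) : ℝ) - x0) - u (t0 + t) (x + 1)) 0
    have hm2 := le_max_left (Z a t - e lam R t (((x - 1 : ℤ) : ℝ) - x0) - u (t0 + t) (x - 1)) 0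
    have hc1 : (((x + 1 : ℤ) : ℝ) - x0) = ((x : ℝ) - x0) + 1 := by push_cast; ring
    have hc2 : (((x - 1 : ℤ) : ℝ) - x0) = ((x : ℝ) - x0) - 1 := by push_cast; ring
    rw [hc1] at hm1 ⊢
    rw [hc2] at hm2 ⊢
    have hξx := (hξ.2 x).1
    have hlap : lap (u (t0 + t)) x = (u (t0 + t) (x + 1) + u (t0 + t) (x - 1)) / 2 - u (t0 + t) x :=
      rfl
    rw [hlap]
    have hxi : a * (u (t0 + t) x * (1 - u (t0 + t) x)) ≤ ξ x * (u (t0 + t) x * (1 - u (t0 + t) x)) :=
      mul_le_mul_of_nonneg_right hξx (mul_nonneg hu0 (by linarith))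
    generalize Z a t = z at *
    generalize e lam R t ((x : ℝ) - x0) = e0 at *
    generalize e lam R t (((x : ℝ) - x0) + 1) = e1 at *
    generalize e lam R t (((x : ℝ) - x0) - 1) = e2 at *
    generalize u (t0 + t) x = v at *
    generalize u (t0 + t) (x + 1) = v1 at *
    generalize u (t0 + t) (x - 1) = v2 at *
    generalize hM1 : max (z - e1 - v1) 0 = M1 at *
    generalize hM2 : max (z - e2 - v2) 0 = M2 at *
    have hq : 0 ≤ z - e0 := by linarith
    have h7 : z * (1 - z) - e0 - v * (1 - v) ≤ z - e0 - v := by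
      nlinarith [mul_nonneg hq he0, mul_nonneg he0 he0,
        mul_nonneg (show 0 ≤ z - e0 - v by linarith) (show 0 ≤ z - e0 + v by linarith)]
    have h8 : a * (z * (1 - z) - e0 - v * (1 - v)) ≤ a * (z - e0 - v) :=
      mul_le_mul_of_nonneg_left h7 ha.le
    have h9 : lam * e0 = (e1 + e2) / 2 - e0 + a * e0 := by rw [hel, hlam]; ring
    rw [h9]
    nlinarith
end BRW.H84
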